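import Pool.Agent.PST.StmtsDR

/-!
# Squad PST, block DR, row EGC: the additive functions on `V / W` have a basis of eigenvectors
-/

set_option autoImplicit false

open scoped BigOperators

noncomputable section

namespace Pool.Agent.PST.H20

open Pool.Agent.PSS

/-- commuting semisimple operators over an algebraically closed field: the joint eigenvectors span -/
theorem jspan {K M ι : Type} [Field K] [IsAlgClosed K] [AddCommGroup M] [Module K M]
    [FiniteDimensional K M] (T : ι → Module.End K M) (hc : ∀ i j, Commute (T i) (T j))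
    (hs : ∀ i, (T i).IsSemisimple) :
    Submodule.span K {x : M | ∃ χ : ι → K, ∀ i, T i x = χ i • x} = ⊤ := by
  have h1 := Module.End.iSup_iInf_maxGenEigenspace_eq_top_of_iSup_maxGenEigenspace_eq_top_of_commute
    T (fun i j _ => hc i j) (fun i => Module.End.iSup_maxGenEigenspace_eq_top (T i))
  rw [eq_top_iff, ← h1]
  refine iSup_le fun χ x hx => ?_
  refine Submodule.subset_span ⟨χ, fun i => ?_⟩
  have h2 : x ∈ (T i).maxGenEigenspace (χ i) := (Submodule.mem_iInf _).1 hx i
  rw [(hs i).isFinitelySemisimple.maxGenEigenspace_eq_eigenspace] at h2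
  exact Module.End.mem_eigenspace_iff.1 h2

/-- an operator of finite order prime to the characteristic is semisimple -/
theorem ssm {K M : Type} [Field K] (ℓ : ℕ) [CharP K ℓ] [AddCommGroup M] [Module K M] [FiniteDimensional K M]
    (T : Module.End K M) (n : ℕ) (hn : ¬ ℓ ∣ n) (hT : T ^ n = 1) : T.IsSemisimple := by
  have h1 : (Polynomial.X ^ n - Polynomial.C (1 : K)).Separable :=
    Polynomial.separable_X_pow_sub_C' ℓ n 1 hn one_ne_zero
  refine Module.End.isSemisimple_of_squarefree_aeval_eq_zero h1.squarefree ?_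
  simp [hT]

/-- the additive functions which vanish on `W` -/
def Hw (F : Type) {V : Type} [Field F] [CommGroup V] (W : Subgroup V) : Submodule F (V → F) where
  carrier := {μ | (∀ u v, μ (u * v) = μ u + μ v) ∧ ∀ w ∈ W, μ w = 0}
  zero_mem' := ⟨fun u v => by simp, fun w _ => by simp⟩
  add_mem' := by
    intro a b ha hb
    refine ⟨fun u v => ?_, fun w hw => ?_⟩
    · simp only [Pi.add_apply]
      rw [ha.1, hb.1]
      ring
    · simp only [Pi.add_apply]
      rw [ha.2 w hw, hb.2 w hw, add_zero]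
  smul_mem' := by
    intro c a ha
    refine ⟨fun u v => ?_, fun w hw => ?_⟩
    · simp only [Pi.smul_apply, smul_eq_mul]
      rw [ha.1]
      ring
    · simp only [Pi.smul_apply, smul_eq_mul]
      rw [ha.2 w hw, mul_zero]

theorem mem_Hw {F V : Type} [Field F] [CommGroup V] {W : Subgroup V} {μ : V → F} :
    μ ∈ Hw F W ↔ (∀ u v, μ (u * v) = μ u + μ v) ∧ ∀ w ∈ W, μ w = 0 := Iff.rfl

/-- the operator `μ ↦ μ ∘ φ e` -/
def Te {F V E : Type} [Field F] [CommGroup V] [Group E] (φ : E →* MulAut V) (W : Subgroup V)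
    (hW : Stb φ W) (e : E) : Module.End F (Hw F W) where
  toFun μ := ⟨fun v => μ.1 (φ e v), fun u v => by
      change μ.1 (φ e (u * v)) = _
      rw [map_mul, (mem_Hw.1 μ.2).1], fun w hw => (mem_Hw.1 μ.2).2 _ (hW e w hw)⟩
  map_add' a b := by
    apply Subtype.ext
    funext v
    rfl
  map_smul' c a := by
    apply Subtype.ext
    funext v
    rfl

theorem te_ap {F V E : Type} [Field F] [CommGroup V] [Group E] (φ : E →* MulAut V)
    (W : Subgroup V) (hW : Stb φ W) (e : E) (μ : Hw F W) (v : V) :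
    (Te φ W hW e μ).1 v = μ.1 (φ e v) := rfl

theorem te_one {F V E : Type} [Field F] [CommGroup V] [Group E] (φ : E →* MulAut V)
    (W : Subgroup V) (hW : Stb φ W) : Te (F := F) φ W hW 1 = 1 := by
  apply LinearMap.ext
  intro μ
  apply Subtype.ext
  funext v
  rw [te_ap, map_one]
  rfl

theorem te_mul {F V E : Type} [Field F] [CommGroup V] [Group E] (φ : E →* MulAut V)
    (W : Subgroup V) (hW : Stb φ W) (e f : E) :
    Te (F := F) φ W hW (e * f) = Te φ W hW f * Te φ W hW e := by
  apply LinearMap.ext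
  intro μ
  apply Subtype.ext
  funext v
  rw [te_ap, map_mul]
  rfl

theorem te_pow {F V E : Type} [Field F] [CommGroup V] [Group E] (φ : E →* MulAut V)
    (W : Subgroup V) (hW : Stb φ W) (e : E) (n : ℕ) :
    Te (F := F) φ W hW (e ^ n) = Te φ W hW e ^ n := by
  induction n with
  | zero => rw [pow_zero, pow_zero, te_one]
  | succ n ih => rw [pow_succ, te_mul, ih, pow_succ']

theorem te_com {F V E : Type} [Field F] [CommGroup V] [Group E] (φ : E →* MulAut V)
    (W : Subgroup V) (hW : Stb φ W) (hc : ∀ e f v, φ (e * f) v * (φ (f * e) v)⁻¹ ∈ W) (e f : E) :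
    Commute (Te (F := F) φ W hW e) (Te φ W hW f) := by
  have h : Te (F := F) φ W hW (f * e) = Te φ W hW (e * f) := by
    apply LinearMap.ext
    intro μ
    apply Subtype.ext
    funext v
    rw [te_ap, te_ap]
    have h1 := (mem_Hw.1 μ.2).2 _ (hc f e v)
    have h2 := (mem_Hw.1 μ.2).1 (φ (f * e) v * (φ (e * f) v)⁻¹) (φ (e * f) v)
    rw [inv_mul_cancel_right, h1, zero_add] at h2
    exact h2
  rw [te_mul, te_mul] at h
  exact h

/-- row EGC -/
theorem egc : EgcStmt := by
  intro ℓ iℓ F V E iF iA iC iV iFV iE iFE φ W hE hW hc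
  have hcom := te_com (F := F) φ W hW hc
  have hss : ∀ e, (Te (F := F) φ W hW e).IsSemisimple := by
    intro e
    refine ssm ℓ _ (Nat.card E) hE ?_
    rw [← te_pow, pow_card_eq_one', te_one]
  have hsp := jspan (fun e => Te (F := F) φ W hW e) hcom hss
  obtain ⟨b, hbs, hspan, hlin⟩ := exists_linearIndependent F
    {x : Hw F W | ∃ χ : E → F, ∀ i, Te (F := F) φ W hW i x = χ i • x}
  rw [hsp] at hspan
  have hfin : Finite b := hlin.finite
  obtain ⟨r, ⟨eq⟩⟩ := Finite.exists_equiv_fin b
  have hx : ∀ l : Fin r, ∃ χ : E → F, ∀ i, Te (F := F) φ W hW i (eq.symm l).1 =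
      χ i • (eq.symm l).1 := fun l => hbs (eq.symm l).2
  choose χ hχ using hx
  have hli : LinearIndependent F (fun l : Fin r => (eq.symm l).1.1) := by
    have h1 : LinearIndependent F (fun l : Fin r => (eq.symm l).1) :=
      hlin.comp eq.symm eq.symm.injective
    exact h1.map' (Hw F W).subtype (Submodule.ker_subtype _)
  have hne : ∀ l, (eq.symm l).1.1 ≠ 0 := fun l => hli.ne_zero l
  have hwt : ∀ l e v, (eq.symm l).1.1 (φ e v) = χ l e * (eq.symm l).1.1 v := by
    intro l e v
    have h1 := congrArg (fun x : Hw F W => x.1 v) (hχ l e)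
    exact h1
  refine ⟨r, fun l => (eq.symm l).1.1, χ, fun l => (mem_Hw.1 (eq.symm l).1.2).1,
    fun l => (mem_Hw.1 (eq.symm l).1.2).2, hwt, ?_, ?_, hli, ?_⟩
  · intro l e f
    obtain ⟨v, hv⟩ := Function.ne_iff.1 (hne l)
    have hv' : (eq.symm l).1.1 v ≠ 0 := hv
    have h1 := hwt l (e * f) v
    rw [map_mul, MulAut.mul_apply, hwt, hwt, ← mul_assoc] at h1
    exact (mul_right_cancel₀ hv' h1).symm
  · intro l
    obtain ⟨v, hv⟩ := Function.ne_iff.1 (hne l)
    have hv' : (eq.symm l).1.1 v ≠ 0 := hv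
    have h1 := hwt l 1 v
    rw [map_one, MulAut.one_apply] at h1
    have h2 : (1 : F) * (eq.symm l).1.1 v = χ l 1 * (eq.symm l).1.1 v := by
      rw [one_mul]
      exact h1
    exact (mul_right_cancel₀ hv' h2).symm
  · intro μ hμ hμW
    have h1 : (⟨μ, hμ, hμW⟩ : Hw F W) ∈ Submodule.span F (Set.range fun l : Fin r => (eq.symm l).1) := by
      have h2 : Set.range (fun l : Fin r => (eq.symm l).1) = b := by
        have h3 : (fun l : Fin r => (eq.symm l).1) = (Subtype.val : b → Hw F W) ∘ eq.symm := rfl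
        rw [h3, Set.range_comp, eq.symm.surjective.range_eq, Set.image_univ, Subtype.range_coe]
      rw [h2, hspan]
      exact Submodule.mem_top
    obtain ⟨a, ha⟩ := (Submodule.mem_span_range_iff_exists_fun F).1 h1
    refine ⟨a, fun v => ?_⟩
    have h2 := congrArg (fun x : Hw F W => (Hw F W).subtype x v) ha
    simp only [map_sum, map_smul, Finset.sum_apply, Pi.smul_apply, smul_eq_mul] at h2
    exact h2.symm

end Pool.Agent.PST.H20
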