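import Pool.Agent.PST.StmtsGU

/-!
# Squad PST, block GU, row FVS: the final theorem for the union of (A) + (S) and (R)
-/

set_option autoImplicit false

noncomputable section

namespace Pool.Agent.PST.GU.H20

open Pool.Agent.Helper51_AWC Pool.Agent.Helper79_WRA Pool.Agent.PP Pool.Agent.PP.KF
open Pool.Agent.PP.K9 Pool.Agent.PP.K9.H97 Pool.Agent.PP.H75 Pool.Agent.PP.T3 Pool.Agent.PP.T2
open Pool.Agent.PFD (Ei)
open Pool.Agent.PSS

attribute [local instance] Ideal.Quotient.field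

/-- row FVS -/
theorem fvs (fnk : FnkStmt) (clu : CluStmt) (cln : ClnStmt) (mnn : MnnFor (KU KS LR)) :
    FvsStmt := by
  intro ℓ hℓ M iM hM G iG iFG hc χ hχ H iH p hp hpk ψ hψ hψχ D hD hDO hab θ hθ hC
  have hfH : Finite H := Finite.of_surjective p hp
  refine fnk (KU KS LR) mnn ℓ M hM G hc χ hχ H p hp hpk ψ hψ hψχ D hD hDO hab θ hθ ?_
  intro e γ hL hTg hne
  rw [← hTg] at hC
  rcases hC with ⟨s, Y, W, U, hC⟩ | ⟨s, Y, U, hC⟩
  · obtain ⟨W₀, h⟩ := cln ℓ M hM H e D γ hL hne s Y W U hC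
    exact ⟨W₀, Or.inl h⟩
  · exact clu ℓ M hM H e D γ hL hne s Y U hC

end Pool.Agent.PST.GU.H20
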