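import Pool.Agent.PST.StmtsUC

/-!
# Squad PST, block UC, row QLU: a left inverse up to a power of `X` lifts to the ring
-/

set_option autoImplicit false

noncomputable section

namespace Pool.Agent.PST.UC.H20

/-- row QLU -/
theorem qlu (nia : NiaStmt) : QluStmt := by
  intro ℓ iℓ F N B H iF iC iN ifN iB iAB iH iAH ν π z m u hN hc hs hk hu
  have hℓ0 : (ℓ : F) = 0 := CharP.cast_eq_zero F ℓ
  have hR : (ℓ : PowerSeries F) = 0 := by
    rw [← map_natCast (PowerSeries.C (R := F)) ℓ, hℓ0, map_zero]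
  obtain ⟨_, _, hnil⟩ := nia ℓ (PowerSeries F) N B ν hR hN hc
  obtain ⟨u1, rfl⟩ := hs u
  obtain ⟨a, ha⟩ : ∃ a : B, a = ((PowerSeries.X : PowerSeries F) ^ m) • (1 : B) := ⟨_, rfl⟩
  obtain ⟨n, hn⟩ : ∃ n : B, n = u1 * z - a := ⟨_, rfl⟩
  have h1 : π n = 0 := by
    rw [hn, ha, map_sub, map_mul, hu, map_smul, map_one, sub_self]
  obtain ⟨k, hk0⟩ := hnil n (hk n h1)
  have hcom : Commute a (-n) := by
    rw [ha]
    unfold Commute SemiconjBy
    rw [smul_mul_assoc, one_mul, mul_smul_comm, mul_one]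
  have h2 := hcom.geom_sum₂_mul k
  have h3 : a - -n = u1 * z := by
    rw [hn]
    abel
  rw [h3] at h2
  have h4 : (-n) ^ k = 0 := by
    rw [neg_pow, hk0, mul_zero]
  rw [h4, sub_zero, ← mul_assoc] at h2
  refine ⟨m * k, _, h2.trans ?_⟩
  rw [ha, smul_pow, one_pow, ← pow_mul]

end Pool.Agent.PST.UC.H20
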