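import Pool.Agent.PST.StmtsGS

/-!
# Squad PST, block GS, row REB: regular elements in the class `KP`
-/

set_option autoImplicit false

noncomputable section

open scoped BigOperators

namespace Pool.Agent.PST.H20

open Pool.Agent.PSS

/-- roots of an order prime to the order of the group -/
theorem rootc {ℓ : ℕ} {V : Type} [CommGroup V] [Finite V] (hℓ : ℓ.Prime) (hV : IsPGroup ℓ V)
    (P : Subgroup V) (n : ℕ) (hn : ¬ ℓ ∣ n) (v : V) (hv : v ∈ P) : ∃ u ∈ P, u ^ n = v := by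
  have hf : Fact ℓ.Prime := ⟨hℓ⟩
  obtain ⟨s, hs⟩ := IsPGroup.iff_card.1 (hV.to_subgroup P)
  have hc : (Nat.card P).Coprime n := by
    rw [hs]
    exact ((Nat.Prime.coprime_iff_not_dvd hℓ).2 hn).pow_left s
  obtain ⟨u, hu⟩ := (Nat.Coprime.pow_left_bijective hc).surjective ⟨v, hv⟩
  exact ⟨u.1, u.2, congrArg Subtype.val hu⟩

/-- the elements of `E` which are trivial on `P / W` -/
def Kpw {V : Type} [CommGroup V] (E : Subgroup (MulAut V)) (P W : Subgroup V)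
    (hW : ∀ a ∈ E, ∀ w ∈ W, a w ∈ W) (hP : ∀ a ∈ E, ∀ w ∈ P, a w ∈ P) :
    Subgroup (MulAut V) where
  carrier := {a | a ∈ E ∧ ∀ v ∈ P, a v * v⁻¹ ∈ W}
  one_mem' := ⟨E.one_mem, fun v _ => by
    rw [MulAut.one_apply, mul_inv_cancel]
    exact W.one_mem⟩
  mul_mem' := by
    rintro a b ⟨ha, ha2⟩ ⟨hb, hb2⟩
    refine ⟨E.mul_mem ha hb, fun v hv => ?_⟩
    have h1 : (a * b) v * v⁻¹ = a (b v * v⁻¹) * (a v * v⁻¹) := by
      rw [MulAut.mul_apply, map_mul, map_inv, mul_assoc, inv_mul_cancel_left]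
    rw [h1]
    exact W.mul_mem (hW a ha _ (hb2 v hv)) (ha2 v hv)
  inv_mem' := by
    rintro a ⟨ha, ha2⟩
    refine ⟨E.inv_mem ha, fun v hv => ?_⟩
    have h1 := ha2 (a⁻¹ v) (hP _ (E.inv_mem ha) v hv)
    rw [MulAut.apply_inv_self] at h1
    have h2 := W.inv_mem h1
    rw [mul_inv_rev, inv_inv] at h2
    exact h2

/-- row REB -/
theorem reb (rea : ReaStmt) : RebStmt := by
  intro ℓ V iV ifV E W U X P hℓ hpg hE hF hcm hWP hP
  have hWst : ∀ a ∈ E, ∀ w ∈ W, a w ∈ W := by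
    intro a ha w hw
    rw [← hF.uw] at hw ⊢
    obtain ⟨y, hy, z, hz, rfl⟩ := Subgroup.mem_sup.1 hw
    rw [map_mul]
    exact Subgroup.mem_sup.2 ⟨a y, hF.su a ha y hy, a z, hF.sx a ha z hz, rfl⟩
  have hUW : U ≤ W := by
    rw [← hF.uw]
    exact le_sup_left
  obtain ⟨K, hKdef⟩ : ∃ K, K = Kpw E P W hWst hP := ⟨_, rfl⟩
  have hK : ∀ a, a ∈ K ↔ (a ∈ E ∧ ∀ v ∈ P, a v * v⁻¹ ∈ W) := by
    intro a
    rw [hKdef]
    exact Iff.rfl
  have hKE : K ≤ E := fun a ha => ((hK a).1 ha).1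
  have hnorm : ∀ a ∈ E, ∀ k ∈ K, a⁻¹ * k * a ∈ K := by
    intro a ha k hk
    obtain ⟨hk1, hk2⟩ := (hK k).1 hk
    refine (hK _).2 ⟨E.mul_mem (E.mul_mem (E.inv_mem ha) hk1) ha, fun v hv => ?_⟩
    have h1 := hWst _ (E.inv_mem ha) _ (hk2 (a v) (hP a ha v hv))
    rw [map_mul, map_inv, MulAut.inv_apply_self] at h1
    rw [MulAut.mul_apply, MulAut.mul_apply]
    exact h1
  let Q : Subgroup V :=
    { carrier := {v | v ∈ P ∧ ∀ k ∈ K, k v = v}
      one_mem' := ⟨P.one_mem, fun k _ => map_one k⟩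
      mul_mem' := by
        rintro x y ⟨hx, hx2⟩ ⟨hy, hy2⟩
        exact ⟨P.mul_mem hx hy, fun k hk => by rw [map_mul, hx2 k hk, hy2 k hk]⟩
      inv_mem' := by
        rintro x ⟨hx, hx2⟩
        exact ⟨P.inv_mem hx, fun k hk => by rw [map_inv, hx2 k hk]⟩ }
  have hQ : ∀ v, v ∈ Q ↔ (v ∈ P ∧ ∀ k ∈ K, k v = v) := fun v => Iff.rfl
  have hQst : ∀ a ∈ E, ∀ u ∈ Q, a u ∈ Q := by
    intro a ha v hv
    obtain ⟨hv1, hv2⟩ := (hQ v).1 hv
    refine (hQ _).2 ⟨hP a ha v hv1, fun k hk => ?_⟩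
    have h1 := congrArg a (hv2 _ (hnorm a ha k hk))
    rw [MulAut.mul_apply, MulAut.mul_apply, MulAut.apply_inv_self] at h1
    exact h1
  have hQcm : ∀ a ∈ E, ∀ b ∈ E, ∀ v ∈ Q, a (b v) = b (a v) := by
    intro a ha b hb v hv
    obtain ⟨hv1, hv2⟩ := (hQ v).1 hv
    have hba : b * a ∈ E := E.mul_mem hb ha
    have hk : (b * a)⁻¹ * (a * b) ∈ K := by
      refine (hK _).2 ⟨E.mul_mem (E.inv_mem hba) (E.mul_mem ha hb), fun w hw => ?_⟩
      have h1 := hWst _ (E.inv_mem hba) _ (hcm a ha b hb w)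
      rw [map_mul, map_inv] at h1
      have h2 : (b * a)⁻¹ (b (a w)) = w := MulAut.inv_apply_self _ (b * a) w
      rw [h2] at h1
      rw [MulAut.mul_apply, MulAut.mul_apply]
      exact h1
    have h3 := hv2 _ hk
    rw [MulAut.mul_apply] at h3
    have h4 := congrArg (b * a) h3
    rw [MulAut.apply_inv_self] at h4
    exact h4
  have hnK : ¬ ℓ ∣ Nat.card K := fun h => hE (h.trans (Subgroup.card_dvd_of_le hKE))
  have hPQ : ∀ v ∈ P, ∃ x ∈ Q, ∃ w ∈ W, v = x * w := by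
    intro v hv
    have hfM : Finite (MulAut V) := Finite.of_injective (fun f : MulAut V => (f : V → V))
      DFunLike.coe_injective
    have iK : Fintype K := Fintype.ofFinite K
    obtain ⟨u, hu, huv⟩ := rootc hℓ hpg P (Nat.card K) hnK v hv
    obtain ⟨x, hx⟩ : ∃ x : V, x = ∏ k : K, k.1 u := ⟨_, rfl⟩
    have hxQ : x ∈ Q := by
      refine (hQ x).2 ⟨?_, fun k hk => ?_⟩
      · rw [hx]
        exact P.prod_mem fun k _ => hP k.1 (hKE k.2) u hu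
      · rw [hx, map_prod]
        exact Fintype.prod_equiv (Equiv.mulLeft (⟨k, hk⟩ : K)) _ _ fun y => rfl
    have hxW : x * v⁻¹ ∈ W := by
      have h1 : x * v⁻¹ = ∏ k : K, (k.1 u * u⁻¹) := by
        rw [Finset.prod_mul_distrib, ← hx, Finset.prod_const, Finset.card_univ,
          ← Nat.card_eq_fintype_card, inv_pow, huv]
      rw [h1]
      exact W.prod_mem fun k _ => ((hK k.1).1 k.2).2 u hu
    refine ⟨x, hxQ, x⁻¹ * v, ?_, by rw [mul_inv_cancel_left]⟩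
    have h2 := W.inv_mem hxW
    rw [mul_inv_rev, inv_inv, mul_comm] at h2
    exact h2
  obtain ⟨q, hq, hqr⟩ := rea ℓ V E Q hℓ hpg hE hQst hQcm
  by_cases hA : ∀ k ∈ K, ∀ w ∈ W, k w = w
  · refine ⟨q, ((hQ q).1 hq).1, fun a ha haq w hw => ?_⟩
    obtain ⟨x, hx, y, hy, rfl⟩ := hPQ w hw
    have hyQ : y ∈ Q := (hQ y).2 ⟨hWP hy, fun k hk => hA k hk y hy⟩
    rw [map_mul, hqr a ha haq x hx, hqr a ha haq y hyQ]
  · push Not at hA
    obtain ⟨k, hk, w0, hw0, hkw⟩ := hA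
    have hQU : ∀ x ∈ Q, x ∈ U → x = 1 := by
      intro x hx hxU
      by_contra hne
      exact hkw (hF.fr k (hKE hk) x hxU hne (((hQ x).1 hx).2 k hk) w0 hw0)
    obtain ⟨u0, hu0, hu1⟩ : ∃ u ∈ U, u ≠ 1 := by
      by_contra hcon
      push Not at hcon
      exact hF.nt ((Subgroup.eq_bot_iff_forall U).2 hcon)
    refine ⟨q * u0, P.mul_mem ((hQ q).1 hq).1 (hWP (hUW hu0)), fun a ha hau w hw => ?_⟩
    rw [map_mul] at hau
    have h1 : q⁻¹ * a q = u0 * (a u0)⁻¹ := by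
      rw [eq_mul_inv_iff_mul_eq, mul_assoc, hau, inv_mul_cancel_left]
    have h2 : q⁻¹ * a q = 1 := hQU _ (Q.mul_mem (Q.inv_mem hq) (hQst a ha q hq)) (by
      rw [h1]
      exact U.mul_mem hu0 (U.inv_mem (hF.su a ha u0 hu0)))
    have h3 : a q = q := (inv_mul_eq_one.1 h2).symm
    have h4 : a u0 = u0 := by
      rw [h1] at h2
      exact (mul_inv_eq_one.1 h2).symm
    obtain ⟨x, hx, y, hy, rfl⟩ := hPQ w hw
    rw [map_mul, hqr a ha h3 x hx, hF.fr a ha u0 hu0 hu1 h4 y hy]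

end Pool.Agent.PST.H20
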