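import Pool.Agent.PST.StmtsGR
import Pool.Agent.PSS.StmtsS6
import Pool.Agent.Helper63_PFD.EGX
import Pool.Agent.Helper50_PP.Ffa
import Pool.Agent.Helper50_PP.Bid

/-!
# Squad PST, row STK: the input of the group level from the theorem for algebras, class KT
-/

set_option autoImplicit false

noncomputable section

namespace Pool.Agent.PST.H20

open Pool.Agent.Helper51_AWC Pool.Agent.Helper79_WRA Pool.Agent.PP Pool.Agent.PP.KF
open Pool.Agent.PP.K9 Pool.Agent.PP.K9.H97 Pool.Agent.PP.H75 Pool.Agent.PP.T3 Pool.Agent.PP.T2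
open Pool.Agent.PFD (Ei)
open Pool.Agent.PFC (Jd Crn jal Cz cv)
open Pool.Agent.PSS

attribute [local instance] Ideal.Quotient.field

/-- row STK -/
theorem stk (knf : KnfStmt) (clg : ClgStmt) (jnw : JnwStmt) (nwg : NwgStmt) (dzc : DzcStmt)
    (jex : PFC.JexStmt) : StkStmt := by
  intro ats ℓ hℓ M iM hM G iG iFG e V γ hL W hWV hK c hc
  have hg : GoodF ℓ (FF M) := H50.fld ℓ hℓ.out M hM
  have : CharP (FF M) ℓ := hg.char
  have : IsAlgClosed (FF M) := hg.closed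
  have hix : ¬ ℓ ∣ ix V γ :=
    K9.H34.inx ℓ M hM G e hL.blk V hL.tp hL.ab γ hL.gam.supp hL.gam.blk hL.und
  let iC : CommGroup V := { (inferInstance : Group V) with
    mul_comm := fun a b => Subtype.ext (hL.ab a a.2 b b.2) }
  have hfin : Finite V := inferInstance
  let iFV : Fintype V := Fintype.ofFinite V
  have hfinM : Finite (MulAut V) := Finite.of_injective (fun f : MulAut V => (f : V → V))
    DFunLike.coe_injective
  let iFE : Fintype (Ei V γ) := Fintype.ofFinite _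
  have hmap : ∀ x : Ei V γ, ∃ t ∈ Tg V γ, ∀ w : V, V.subtype ((Ei V γ).subtype x w) =
      t * V.subtype w * t⁻¹ := by
    rintro ⟨x, t, ht, rfl⟩
    exact ⟨t, ht, fun w => rfl⟩
  have hmap2 : ∀ t ∈ Tg V γ, ∃ x : Ei V γ, ∀ w : V, V.subtype ((Ei V γ).subtype x w) =
      t * V.subtype w * t⁻¹ := by
    intro t ht
    have h2 : t ∈ Subgroup.normalizer (V : Set G) := (Subgroup.mem_inf.1 ht).1
    exact ⟨⟨V.normalizerMonoidHom ⟨t, h2⟩, ⟨⟨t, h2⟩, ht, rfl⟩⟩, fun w => rfl⟩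
  have hW : (W.subgroupOf V).map V.subtype = W := Subgroup.map_subgroupOf_eq_of_le hWV
  obtain ⟨_, hCh, U, X, hS⟩ := hK
  obtain ⟨n, ψ, hchn, hrs, hfre⟩ := knf ℓ V (Ei V γ) (W.subgroupOf V) U X hCh hS
  obtain ⟨j, hj⟩ := jex ℓ M hM G e V γ hL
  have hv : ∀ (w : V) x, j (V.subtype w * x * (V.subtype w)⁻¹) = j x :=
    fun w x => hj.iv w w.2 x
  have hA := clg ℓ M hM G e V γ hL j hj V (Ei V γ) V.subtype Subtype.val_injective
    V.range_subtype (Ei V γ).subtype hmap2 hmap hj.id hv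
  have hj' := jnw ℓ M hM G e V γ hL W hWV c hc j hj
  obtain ⟨nw⟩ := nwg ℓ (FF M) G V V.subtype Subtype.val_injective hL.tp.pg (W.subgroupOf V) W hW
    j hj.id hv hj'.id
  have hcop : ¬ ℓ ∣ Nat.card (Ei V γ) := by
    rw [PFD.H63.card_Ei]
    exact hix
  have h := ats n ℓ (FF M) V (Ei V γ) (Crn hj.id) (Crn hj'.id) (Ei V γ).subtype
    (jal hj.id V.subtype hv) (W.subgroupOf V) ψ hL.tp.pg hcop hchn hrs (Or.inr hfre) hA nw
  rw [dzc ℓ M hM G e V γ hL j hj hj.id, dzc ℓ M hM _ c _ _ hc _ hj' hj'.id] at h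
  exact h

end Pool.Agent.PST.H20
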