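import Pool.Agent.PST.StmtsET1
import Pool.Agent.Helper49_PFD.UNG

/-!
# Squad PST, block ET, row UPR: an element which is invertible modulo `π` is invertible
-/

set_option autoImplicit false

noncomputable section

namespace Pool.Agent.PST.ET.H20

open Pool.Agent.PFD.D2 (Cdv FibG)

/-- row UPR -/
theorem upr : UprStmt := by
  intro R F D iR iF c iD iA iM s y d d' h1 h2
  have hr : ∃ x : D, (s * y) * x = 1 := by
    refine (PFD.D2.H49.ung R F D c (LinearMap.mulLeft R (s * y)) fun x => ?_).surjective 1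
    refine ⟨d * x, ?_⟩
    rw [LinearMap.mulLeft_apply, h1, add_mul, one_mul, add_sub_cancel_left, smul_mul_assoc]
  have hl : ∃ x : D, x * (y * s) = 1 := by
    refine (PFD.D2.H49.ung R F D c (LinearMap.mulRight R (y * s)) fun x => ?_).surjective 1
    refine ⟨x * d', ?_⟩
    rw [LinearMap.mulRight_apply, h2, mul_add, mul_one, add_sub_cancel_left, mul_smul_comm]
  obtain ⟨a, ha⟩ := hr
  obtain ⟨b, hb⟩ := hl
  rw [mul_assoc] at ha
  rw [← mul_assoc] at hb
  have hab : b * y = y * a := by
    calc b * y = (b * y) * (s * (y * a)) := by rw [ha, mul_one]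
      _ = (b * y * s) * (y * a) := by rw [← mul_assoc]
      _ = y * a := by rw [hb, one_mul]
  rw [hab] at hb
  exact ⟨⟨s, y * a, ha, hb⟩, rfl⟩

end Pool.Agent.PST.ET.H20
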